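import Pool.Agent.Y856.Hy.Stm
import Pool.Agent.Results.MP_00e23e_nt.LogLogLoss

set_option autoImplicit false

namespace Pool.Agent.Y833.HY

open Finset Pool.Agent.Y856.Hy

/-- the error term -/
noncomputable def Er (x : ℝ) (m c : ℕ) : ℝ :=
  |((PA ⌊x⌋₊ m c).card : ℝ) - li x / (Nat.totient m : ℝ)|

theorem one_le_log {x : ℝ} (hx : 3 ≤ x) : 1 ≤ Real.log x := by
  have h3 : (1:ℝ) ≤ Real.log 3 := by
    have := Pool.Agent.H441R3.BV.one_le_log (l := 3) le_rfl
    exact_mod_cast this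
  exact h3.trans (Real.log_le_log (by norm_num) hx)

theorem bv (U : ℕ) : ∃ C : ℝ, 0 < C ∧ ∀ x : ℝ, 3 ≤ x → ∀ D : ℕ,
    (D : ℝ) ≤ Real.sqrt x / Real.log x ^ (U + 2) →
    ∀ l : ℕ → ℕ, (∀ d, 1 ≤ d → (l d).Coprime d) →
    ∑ d ∈ Icc 1 D, Er x d (l d) ≤ C * (x / Real.log x ^ U) := by
  obtain ⟨C0, h⟩ := Pool.Agent.Results.MP_00e23e_nt.LogLogLoss.result (U : ℝ)
  refine ⟨2 * (|C0| + 1), by positivity, ?_⟩
  intro x hx D hD l hl
  have hL : 1 ≤ Real.log x := one_le_log hx
  have hL0 : 0 < Real.log x := by linarith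
  have hx0 : 0 < x := by linarith
  have hp : 1 ≤ Real.log x ^ (U + 2) := one_le_pow₀ hL
  have hD1 : (D : ℝ) ≤ Real.sqrt x :=
    hD.trans (div_le_self (Real.sqrt_nonneg _) hp)
  have h1 := h x hx (D : ℝ) (Nat.cast_nonneg _) hD1 (fun _ => x)
    (fun _ => ⟨by linarith, le_rfl⟩) l hl
  rw [Nat.floor_natCast, Real.rpow_natCast] at h1
  have h2 : ∑ d ∈ Icc 1 D, |Pool.Agent.Results.MP_00e23e_nt.LogLogLoss.E x d (l d)| =
      ∑ d ∈ Icc 1 D, Er x d (l d) := rfl
  rw [h2] at h1
  refine h1.trans ?_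
  have h3 : (D : ℝ) * Real.sqrt x * Real.log (Real.log x) ^ 2 ≤ x / Real.log x ^ U := by
    have a1 : 0 ≤ Real.log (Real.log x) := Real.log_nonneg hL
    have a2 : Real.log (Real.log x) ≤ Real.log x := by
      have := Real.log_le_sub_one_of_pos hL0
      linarith
    calc (D : ℝ) * Real.sqrt x * Real.log (Real.log x) ^ 2
        ≤ Real.sqrt x / Real.log x ^ (U + 2) * Real.sqrt x * Real.log x ^ 2 := by gcongr
      _ = (Real.sqrt x * Real.sqrt x) / Real.log x ^ U := by
          rw [pow_add]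
          field_simp
      _ = x / Real.log x ^ U := by rw [Real.mul_self_sqrt hx0.le]
  have h4 : 0 ≤ x / Real.log x ^ U := by positivity
  calc C0 * (x / Real.log x ^ U + (D : ℝ) * Real.sqrt x * Real.log (Real.log x) ^ 2)
      ≤ |C0| * (x / Real.log x ^ U + (D : ℝ) * Real.sqrt x * Real.log (Real.log x) ^ 2) := by
        apply mul_le_mul_of_nonneg_right (le_abs_self _)
        have : 0 ≤ (D : ℝ) * Real.sqrt x * Real.log (Real.log x) ^ 2 := by positivity
        linarith
    _ ≤ |C0| * (x / Real.log x ^ U + x / Real.log x ^ U) := by gcongr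
    _ ≤ 2 * (|C0| + 1) * (x / Real.log x ^ U) := by nlinarith [abs_nonneg C0]

theorem li_nonneg {x : ℝ} (hx : 3 ≤ x) : 0 ≤ li x := by
  unfold li
  apply intervalIntegral.integral_nonneg (by linarith)
  intro t ht
  have : 0 < Real.log t := Real.log_pos (by linarith [ht.1])
  positivity

theorem li_le {x : ℝ} (hx : 3 ≤ x) : li x ≤ 2 * x := by
  unfold li
  have h1 : ∫ t in (2 : ℝ)..x, 1 / Real.log t ≤ ∫ _t in (2 : ℝ)..x, (2 : ℝ) := by
    apply intervalIntegral.integral_mono_on (by linarith)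
    · apply ContinuousOn.intervalIntegrable
      rw [Set.uIcc_of_le (by linarith)]
      intro t ht
      have ht0 : 0 < t := by linarith [ht.1]
      have : Real.log t ≠ 0 := (Real.log_pos (by linarith [ht.1])).ne'
      exact (continuousAt_const.div (Real.continuousAt_log ht0.ne') this).continuousWithinAt
    · exact intervalIntegrable_const
    · intro t ht
      have h2 : Real.log 2 ≤ Real.log t := Real.log_le_log (by norm_num) ht.1
      have h3 : (1 / 2 : ℝ) ≤ Real.log t := by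
        have := Real.log_two_gt_d9
        linarith
      rw [div_le_iff₀ (by linarith)]
      linarith
  refine h1.trans ?_
  rw [intervalIntegral.integral_const, smul_eq_mul]
  linarith

theorem card_PA_le (N m c : ℕ) (hm : 1 ≤ m) : (PA N m c).card ≤ N / m + 1 := by
  classical
  have h1 : (PA N m c).card ≤ (range (N / m + 1)).card := by
    apply card_le_card_of_injOn (fun p => p / m)
    · intro p hp
      have hp := mem_coe.1 hp
      unfold PA at hp
      rw [mem_filter, mem_Icc] at hp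
      rw [mem_coe, mem_range]
      have h9 := Nat.div_le_div_right (c := m) hp.1.2
      show p / m < N / m + 1
      omega
    · intro p hp q hq hpq
      have hp := mem_coe.1 hp
      have hq := mem_coe.1 hq
      unfold PA at hp hq
      rw [mem_filter] at hp hq
      have h2 : p % m = q % m := (hp.2.2.trans hq.2.2.symm)
      have h3 := Nat.div_add_mod p m
      have h4 := Nat.div_add_mod q m
      have h5 : p / m = q / m := hpq
      rw [← h3, ← h4, h5, h2]
  rwa [card_range] at h1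

theorem triv {x : ℝ} (hx : 3 ≤ x) (m c : ℕ) (hm : 1 ≤ m) (hmx : (m : ℝ) ≤ x) :
    (Nat.totient m : ℝ) * Er x m c ≤ 4 * x := by
  have hφ : 0 < Nat.totient m := Nat.totient_pos.2 hm
  have hφ' : (0:ℝ) < Nat.totient m := by exact_mod_cast hφ
  have hφm : (Nat.totient m : ℝ) ≤ m := by exact_mod_cast Nat.totient_le m
  have h1 : ((PA ⌊x⌋₊ m c).card : ℝ) ≤ x / m + 1 := by
    have := card_PA_le ⌊x⌋₊ m c hm
    have h2 : ((PA ⌊x⌋₊ m c).card : ℝ) ≤ ((⌊x⌋₊ / m : ℕ) : ℝ) + 1 := by exact_mod_cast this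
    have h3 : ((⌊x⌋₊ / m : ℕ) : ℝ) ≤ (⌊x⌋₊ : ℝ) / m := Nat.cast_div_le
    have h4 : (⌊x⌋₊ : ℝ) / m ≤ x / m := by
      gcongr
      exact Nat.floor_le (by linarith)
    linarith
  have hm0 : (0:ℝ) < m := by exact_mod_cast hm
  have h2 : (Nat.totient m : ℝ) * (x / m + 1) ≤ 2 * x := by
    have a1 : (Nat.totient m : ℝ) * (x / m) ≤ x := by
      rw [mul_div_assoc', div_le_iff₀ hm0]
      nlinarith
    nlinarith
  have h3 : (Nat.totient m : ℝ) * (li x / Nat.totient m) = li x := by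
    field_simp
  have h4 := li_le hx
  have h5 := li_nonneg hx
  have h6 : 0 ≤ li x / (Nat.totient m : ℝ) := by positivity
  have h7 : Er x m c ≤ ((PA ⌊x⌋₊ m c).card : ℝ) + li x / (Nat.totient m : ℝ) := by
    unfold Er
    rw [abs_le]
    constructor
    · have : (0:ℝ) ≤ ((PA ⌊x⌋₊ m c).card : ℝ) := Nat.cast_nonneg _
      linarith
    · linarith
  calc (Nat.totient m : ℝ) * Er x m c
      ≤ (Nat.totient m : ℝ) * (((PA ⌊x⌋₊ m c).card : ℝ) + li x / (Nat.totient m : ℝ)) := by
        gcongr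
    _ = (Nat.totient m : ℝ) * ((PA ⌊x⌋₊ m c).card : ℝ) + li x := by rw [mul_add, h3]
    _ ≤ (Nat.totient m : ℝ) * (x / m + 1) + li x := by gcongr
    _ ≤ 4 * x := by linarith

theorem Er_nonneg (x : ℝ) (m c : ℕ) : 0 ≤ Er x m c := abs_nonneg _

theorem mt : S_mt := by
  intro A
  obtain ⟨C, hC, h⟩ := bv A
  refine ⟨A + 2, 4 * C, by positivity, ?_⟩
  intro x hx D hD a ha
  have h1 := h x hx D hD a ha
  have hL : 1 ≤ Real.log x := one_le_log hx
  have hDx : (D : ℝ) ≤ x := by
    have h2 : (D : ℝ) ≤ Real.sqrt x :=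
      hD.trans (div_le_self (Real.sqrt_nonneg _) (one_le_pow₀ hL))
    have h3 : Real.sqrt x ≤ x := by
      rw [Real.sqrt_le_left (by linarith)]
      nlinarith
    linarith
  calc ∑ d ∈ Icc 1 D, (Nat.totient d : ℝ) *
      (((PA ⌊x⌋₊ d (a d)).card : ℝ) - li x / (Nat.totient d : ℝ)) ^ 2
      ≤ ∑ d ∈ Icc 1 D, 4 * x * Er x d (a d) := by
        apply sum_le_sum
        intro d hd
        rw [mem_Icc] at hd
        have h4 := triv hx d (a d) hd.1 (by
          have : (d : ℝ) ≤ D := by exact_mod_cast hd.2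
          linarith)
        have h5 : (((PA ⌊x⌋₊ d (a d)).card : ℝ) - li x / (Nat.totient d : ℝ)) ^ 2 =
            Er x d (a d) * Er x d (a d) := by
          unfold Er
          rw [← sq, sq_abs]
        rw [h5, ← mul_assoc]
        exact mul_le_mul_of_nonneg_right h4 (Er_nonneg _ _ _)
    _ = 4 * x * ∑ d ∈ Icc 1 D, Er x d (a d) := by rw [mul_sum]
    _ ≤ 4 * x * (C * (x / Real.log x ^ A)) := by gcongr
    _ = 4 * C * (x ^ 2 / Real.log x ^ A) := by ring

end Pool.Agent.Y833.HY
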