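import Pool.Agent.Y833.HY.Base

set_option autoImplicit false

namespace Pool.Agent.Y833.HY

open Finset Pool.Agent.Y856.Hy

theorem Er_mod (x : ℝ) (m c : ℕ) : Er x m (c % m) = Er x m c := by
  unfold Er PA
  have h : (Icc 1 ⌊x⌋₊).filter (fun p => p.Prime ∧ p ≡ c % m [MOD m]) =
      (Icc 1 ⌊x⌋₊).filter (fun p => p.Prime ∧ p ≡ c [MOD m]) := by
    apply filter_congr
    intro p _
    have : (p ≡ c % m [MOD m]) ↔ (p ≡ c [MOD m]) := by
      unfold Nat.ModEq
      rw [Nat.mod_mod]
    rw [this]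
  rw [h]

/-- a class with the largest error -/
theorem exists_max (x : ℝ) : ∃ l : ℕ → ℕ, (∀ m, 1 ≤ m → (l m).Coprime m) ∧
    ∀ m c, 1 ≤ m → c.Coprime m → Er x m c ≤ Er x m (l m) := by
  have key : ∀ m : ℕ, ∃ l : ℕ, 1 ≤ m → (l.Coprime m ∧
      ∀ c, c.Coprime m → Er x m c ≤ Er x m l) := by
    intro m
    by_cases hm : 1 ≤ m
    · have hne : ((range m).filter (fun c => c.Coprime m)).Nonempty := by
        refine ⟨1 % m, ?_⟩
        rw [mem_filter, mem_range]
        refine ⟨Nat.mod_lt _ (by omega), ?_⟩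
        unfold Nat.Coprime
        rw [← Nat.gcd_rec, Nat.gcd_one_right]
      obtain ⟨l, hl, hmax⟩ := exists_max_image _ (fun c => Er x m c) hne
      rw [mem_filter] at hl
      refine ⟨l, fun _ => ⟨hl.2, ?_⟩⟩
      intro c hc
      have h1 : c % m ∈ (range m).filter (fun c => c.Coprime m) := by
        rw [mem_filter, mem_range]
        refine ⟨Nat.mod_lt _ (by omega), ?_⟩
        unfold Nat.Coprime at hc ⊢
        rw [← Nat.gcd_rec, Nat.gcd_comm]
        exact hc
      have h2 := hmax _ h1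
      have h3 := Er_mod x m c
      rw [← h3]
      exact h2
    · exact ⟨0, fun h => absurd h hm⟩
  choose l hl using key
  exact ⟨l, fun m hm => (hl m hm).1, fun m c hm hc => (hl m hm).2 c hc⟩

/-- one character -/
theorem char_bound {x : ℝ} (d r a : ℕ) (hd : 1 ≤ d) (hr : 1 < r) (hrd : r.Coprime d)
    (ha : a.Coprime d) (χ : DirichletCharacter ℂ r) (hχ : χ ≠ 1) (M : ℝ)
    (hM : ∀ c, c.Coprime (d * r) → Er x (d * r) c ≤ M) :
    ‖∑ n ∈ PA ⌊x⌋₊ d a, χ (n : ZMod r)‖ ≤ (Nat.totient r : ℝ) * M := by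
  classical
  haveI : NeZero r := ⟨by omega⟩
  set P := PA ⌊x⌋₊ d a with hP
  -- sum over the classes
  have h1 : ∑ n ∈ P, χ (n : ZMod r) =
      ∑ b : ZMod r, χ b * ((P.filter (fun n => ((n : ℕ) : ZMod r) = b)).card : ℂ) := by
    rw [← sum_fiberwise_of_maps_to (s := P) (t := (univ : Finset (ZMod r)))
      (g := fun n => ((n : ℕ) : ZMod r)) (fun _ _ => mem_univ _)]
    apply sum_congr rfl
    intro b _
    rw [sum_congr rfl (g := fun _ => χ b)
      (fun n hn => by rw [(mem_filter.1 hn).2]), sum_const, nsmul_eq_mul, mul_comm]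
  have h2 : ∑ b : ZMod r, χ b = 0 := MulChar.sum_eq_zero_of_ne_one hχ
  set T : ℂ := ((li x / (Nat.totient (d * r) : ℝ) : ℝ) : ℂ) with hT
  have h3 : ∑ n ∈ P, χ (n : ZMod r) =
      ∑ b : ZMod r, χ b * (((P.filter (fun n => ((n : ℕ) : ZMod r) = b)).card : ℂ) - T) := by
    rw [h1]
    simp_rw [mul_sub]
    rw [sum_sub_distrib, ← sum_mul, h2]
    ring
  rw [h3]
  refine (norm_sum_le _ _).trans ?_
  have h4 : ∀ b : ZMod r,
      ‖χ b * (((P.filter (fun n => ((n : ℕ) : ZMod r) = b)).card : ℂ) - T)‖ ≤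
        if IsUnit b then M else 0 := by
    intro b
    by_cases hb : IsUnit b
    · rw [if_pos hb, norm_mul]
      have h5 : ‖χ b‖ ≤ 1 := DirichletCharacter.norm_le_one χ b
      obtain ⟨c, hc1, hc2⟩ := Nat.chineseRemainder hrd.symm a b.val
      have hcd : c.Coprime d := by
        have := hc1.gcd_eq
        unfold Nat.Coprime at ha ⊢
        rw [this]
        exact ha
      have hbv : b.val.Coprime r := by
        rw [← ZMod.isUnit_iff_coprime, ZMod.natCast_zmod_val]
        exact hb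
      have hcr : c.Coprime r := by
        have := hc2.gcd_eq
        unfold Nat.Coprime at hbv ⊢
        rw [this]
        exact hbv
      have h6 := hM c (hcd.mul_right hcr)
      have h7 : P.filter (fun n => ((n : ℕ) : ZMod r) = b) = PA ⌊x⌋₊ (d * r) c := by
        rw [hP]
        unfold PA
        rw [filter_filter]
        apply filter_congr
        intro p _
        have e1 : ((p : ℕ) : ZMod r) = b ↔ p ≡ c [MOD r] := by
          rw [← ZMod.natCast_zmod_val b, ZMod.natCast_eq_natCast_iff]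
          constructor
          · intro h
            exact h.trans hc2.symm
          · intro h
            exact h.trans hc2
        have e2 : p ≡ c [MOD (d * r)] ↔ p ≡ a [MOD d] ∧ p ≡ c [MOD r] := by
          rw [← Nat.modEq_and_modEq_iff_modEq_mul hrd.symm]
          constructor
          · rintro ⟨h, h'⟩
            exact ⟨h.trans hc1, h'⟩
          · rintro ⟨h, h'⟩
            exact ⟨h.trans hc1.symm, h'⟩
        rw [e1, e2]
        tauto
      rw [h7]
      have h8 : ‖((PA ⌊x⌋₊ (d * r) c).card : ℂ) - T‖ ≤ M := by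
        have e3 : ((PA ⌊x⌋₊ (d * r) c).card : ℂ) - T =
            (((PA ⌊x⌋₊ (d * r) c).card - li x / (Nat.totient (d * r) : ℝ) : ℝ) : ℂ) := by
          rw [hT]
          push_cast
          ring
        rw [e3, Complex.norm_real, Real.norm_eq_abs]
        exact h6
      calc ‖χ b‖ * ‖((PA ⌊x⌋₊ (d * r) c).card : ℂ) - T‖ ≤ 1 * M := by
            gcongr
        _ = M := one_mul _
    · rw [if_neg hb, χ.map_nonunit hb, zero_mul, norm_zero]
  refine (sum_le_sum (fun b _ => h4 b)).trans ?_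
  rw [← sum_filter, sum_const, nsmul_eq_mul]
  have h9 : ((univ : Finset (ZMod r)).filter (fun b => IsUnit b)).card = Nat.totient r := by
    rw [← ZMod.card_units_eq_totient]
    rw [← Fintype.card_subtype]
    exact Fintype.card_congr ⟨fun b => b.2.unit, fun u => ⟨u, u.isUnit⟩,
      fun b => by ext; simp, fun u => by ext; simp⟩
  rw [h9]

theorem X_bound {x : ℝ} (d r a : ℕ) (hd : 1 ≤ d) (hr : 1 < r) (hrd : r.Coprime d)
    (ha : a.Coprime d) (M : ℝ) (hM0 : 0 ≤ M)
    (hM : ∀ c, c.Coprime (d * r) → Er x (d * r) c ≤ M) :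
    X (PA ⌊x⌋₊ d a) r ≤ (Nat.totient r : ℝ) ^ 3 * M ^ 2 := by
  classical
  haveI : NeZero r := ⟨by omega⟩
  unfold X
  have h1 : ∀ χ ∈ (univ : Finset (DirichletCharacter ℂ r)).filter (fun χ => χ.IsPrimitive),
      ‖∑ n ∈ PA ⌊x⌋₊ d a, χ (n : ZMod r)‖ ^ 2 ≤ ((Nat.totient r : ℝ) * M) ^ 2 := by
    intro χ hχ
    have hne : χ ≠ 1 := by
      rintro rfl
      have hp := (mem_filter.1 hχ).2
      unfold DirichletCharacter.IsPrimitive at hp
      rw [DirichletCharacter.conductor_one] at hp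
      omega
    exact pow_le_pow_left₀ (norm_nonneg _) (char_bound d r a hd hr hrd ha χ hne M hM) 2
  refine (sum_le_sum h1).trans ?_
  rw [sum_const, nsmul_eq_mul]
  have h2 : ((univ : Finset (DirichletCharacter ℂ r)).filter (fun χ => χ.IsPrimitive)).card ≤
      Nat.totient r := by
    refine (card_filter_le _ _).trans ?_
    rw [card_univ, ← Nat.card_eq_fintype_card,
      DirichletCharacter.card_eq_totient_of_hasEnoughRootsOfUnity ℂ r]
  have h3 : (((univ : Finset (DirichletCharacter ℂ r)).filter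
      (fun χ => χ.IsPrimitive)).card : ℝ) ≤ (Nat.totient r : ℝ) := by exact_mod_cast h2
  calc _ ≤ (Nat.totient r : ℝ) * ((Nat.totient r : ℝ) * M) ^ 2 := by
        apply mul_le_mul_of_nonneg_right h3 (by positivity)
    _ = (Nat.totient r : ℝ) ^ 3 * M ^ 2 := by ring

theorem small : S_small := by
  intro A
  obtain ⟨C, hC, h⟩ := bv (3 * A)
  refine ⟨4 * A + 2, 4 * C, by positivity, ?_⟩
  intro x hx D K hD hK a ha
  have hL : 1 ≤ Real.log x := one_le_log hx
  have hL0 : 0 < Real.log x := by linarith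
  have hx0 : 0 < x := by linarith
  obtain ⟨l, hl1, hl2⟩ := exists_max x
  have hDK : ((D * K : ℕ) : ℝ) ≤ Real.sqrt x / Real.log x ^ (3 * A + 2) := by
    push_cast
    calc (D : ℝ) * K ≤ Real.sqrt x / Real.log x ^ (4 * A + 2) * Real.log x ^ A := by gcongr
      _ = Real.sqrt x / Real.log x ^ (3 * A + 2) := by
          have : 4 * A + 2 = A + (3 * A + 2) := by ring
          rw [this, pow_add]
          field_simp
  have hDKx : ((D * K : ℕ) : ℝ) ≤ x := by
    have h2 : ((D * K : ℕ) : ℝ) ≤ Real.sqrt x :=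
      hDK.trans (div_le_self (Real.sqrt_nonneg _) (one_le_pow₀ hL))
    have h3 : Real.sqrt x ≤ x := by
      rw [Real.sqrt_le_left (by linarith)]
      nlinarith
    linarith
  have h1 := h x hx (D * K) hDK l hl1
  set M : ℕ → ℝ := fun m => Er x m (l m) with hMdef
  have hM0 : ∀ m, 0 ≤ M m := fun m => Er_nonneg _ _ _
  have hterm : ∀ d ∈ Icc 1 D, ∀ r ∈ (Ioc 1 K).filter (fun r => r.Coprime d),
      (Nat.totient d : ℝ) * ((1 / (Nat.totient r : ℝ)) * X (PA ⌊x⌋₊ d (a d)) r) ≤
        4 * x * K * M (d * r) := by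
    intro d hd r hr
    rw [mem_Icc] at hd
    rw [mem_filter, mem_Ioc] at hr
    obtain ⟨⟨hr1, hrK⟩, hrd⟩ := hr
    have hdr1 : 1 ≤ d * r := Nat.mul_pos hd.1 (by omega)
    have hX := X_bound (x := x) d r (a d) hd.1 hr1 hrd (ha d hd.1) (M (d * r)) (hM0 _)
      (fun c hc => hl2 (d * r) c hdr1 hc)
    have hφr : (0:ℝ) < Nat.totient r := by
      exact_mod_cast Nat.totient_pos.2 (by omega)
    have hφd : (0:ℝ) ≤ Nat.totient d := Nat.cast_nonneg _
    have hφrK : (Nat.totient r : ℝ) ≤ K := by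
      exact_mod_cast (Nat.totient_le r).trans hrK
    have hdrx : ((d * r : ℕ) : ℝ) ≤ x := by
      have : d * r ≤ D * K := Nat.mul_le_mul hd.2 hrK
      have h' : ((d * r : ℕ) : ℝ) ≤ ((D * K : ℕ) : ℝ) := by exact_mod_cast this
      linarith
    have ht := triv hx (d * r) (l (d * r)) hdr1 hdrx
    have hφm : (Nat.totient (d * r) : ℝ) = (Nat.totient d : ℝ) * Nat.totient r := by
      rw [Nat.totient_mul hrd.symm]
      push_cast
      ring
    rw [hφm] at ht
    have hM := hM0 (d * r)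
    calc (Nat.totient d : ℝ) * ((1 / (Nat.totient r : ℝ)) * X (PA ⌊x⌋₊ d (a d)) r)
        ≤ (Nat.totient d : ℝ) * ((1 / (Nat.totient r : ℝ)) *
            ((Nat.totient r : ℝ) ^ 3 * M (d * r) ^ 2)) := by gcongr
      _ = ((Nat.totient d : ℝ) * Nat.totient r * M (d * r)) *
            ((Nat.totient r : ℝ) * M (d * r)) := by
          field_simp
      _ ≤ (4 * x) * (K * M (d * r)) := by
          apply mul_le_mul ht _ (by positivity) (by positivity)
          gcongr
      _ = 4 * x * K * M (d * r) := by ring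
  have hsum : ∑ d ∈ Icc 1 D, (Nat.totient d : ℝ) *
      ∑ r ∈ (Ioc 1 K).filter (fun r => r.Coprime d),
        (1 / (Nat.totient r : ℝ)) * X (PA ⌊x⌋₊ d (a d)) r ≤
      4 * x * K * ∑ d ∈ Icc 1 D, ∑ r ∈ Ioc 1 K, M (d * r) := by
    rw [mul_sum]
    apply sum_le_sum
    intro d hd
    rw [mul_sum, mul_sum]
    refine (sum_le_sum (hterm d hd)).trans ?_
    apply sum_le_sum_of_subset_of_nonneg (filter_subset _ _)
    intro r _ _
    have := hM0 (d * r)
    positivity
  have hfib : ∑ d ∈ Icc 1 D, ∑ r ∈ Ioc 1 K, M (d * r) ≤ K * ∑ m ∈ Icc 1 (D * K), M m := by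
    rw [sum_comm]
    have h5 : ∀ r ∈ Ioc 1 K, ∑ d ∈ Icc 1 D, M (d * r) ≤ ∑ m ∈ Icc 1 (D * K), M m := by
      intro r hr
      rw [mem_Ioc] at hr
      have h6 : ∑ d ∈ Icc 1 D, M (d * r) = ∑ m ∈ (Icc 1 D).image (fun d => d * r), M m := by
        rw [sum_image]
        intro u _ v _ huv
        exact Nat.eq_of_mul_eq_mul_right (by omega) huv
      rw [h6]
      apply sum_le_sum_of_subset_of_nonneg
      · intro m hm
        rw [mem_image] at hm
        obtain ⟨d, hd, rfl⟩ := hm
        rw [mem_Icc] at hd ⊢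
        exact ⟨Nat.mul_pos hd.1 (by omega), Nat.mul_le_mul hd.2 hr.2⟩
      · intro m _ _
        exact hM0 m
    refine (sum_le_sum h5).trans ?_
    rw [sum_const, nsmul_eq_mul, Nat.card_Ioc]
    apply mul_le_mul_of_nonneg_right _ (sum_nonneg (fun m _ => hM0 m))
    exact_mod_cast Nat.sub_le K 1
  have hS0 : 0 ≤ ∑ m ∈ Icc 1 (D * K), M m := sum_nonneg (fun m _ => hM0 m)
  refine hsum.trans ?_
  calc 4 * x * K * ∑ d ∈ Icc 1 D, ∑ r ∈ Ioc 1 K, M (d * r)
      ≤ 4 * x * K * (K * ∑ m ∈ Icc 1 (D * K), M m) := by gcongr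
    _ ≤ 4 * x * Real.log x ^ A * (Real.log x ^ A * (C * (x / Real.log x ^ (3 * A)))) := by
        gcongr
    _ = 4 * C * (x ^ 2 / Real.log x ^ A) := by
        have : 3 * A = A + A + A := by ring
        rw [this, pow_add, pow_add]
        field_simp

end Pool.Agent.Y833.HY
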